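import Pool.Agent.H.MP_f5c34b_co.A

namespace Pool.Agent.Results.MP_f5c34b_co.Yes

open Pool.Agent.H.MP_f5c34b_co Filter

def th (a : ℝ) : ℝ := a - (a - 1) ^ 2

theorem LC {a1 a2 a3 a4 : ℝ} (h1 : 1 ≤ a1) (h2 : 1 ≤ a2) (h3 : 1 ≤ a3) (h4 : a4 ≤ 3 / 2)
    (l2 : a2 < a4) (l3 : a3 < a4) (hp : 1 < a2 * a3) (h : th a2 * th a3 ≤ th a1 * th a4) :
    a2 * a3 < a1 * a4 := by
  by_contra hc
  push Not at hc
  have p4 : 0 < a4 := by linarith
  obtain ⟨b, hb⟩ : ∃ b, b * a4 = a2 * a3 := ⟨a2 * a3 / a4, by field_simp⟩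
  have b1 : a1 ≤ b := le_of_mul_le_mul_right (by linarith) p4
  have b2 : b < a2 := lt_of_mul_lt_mul_right (by nlinarith) p4.le
  have t1 : th a1 ≤ th b := by unfold th; nlinarith
  have t4 : 0 < th a4 := by unfold th; nlinarith
  have s : a2 + a3 < b + a4 := by
    apply lt_of_mul_lt_mul_right _ p4.le
    nlinarith [mul_pos (sub_pos.mpr l2) (sub_pos.mpr l3)]
  have e : th a2 * th a3 - th b * th a4 =
      (b + a4 - (a2 + a3)) * (3 * (a2 * a3 + 1) - (a2 + a3) - (b + a4)) := by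
    unfold th
    linear_combination (-(b * a4) - a2 * a3 + 3 * (b + a4) - 7) * hb
  have : 0 < (b + a4 - (a2 + a3)) * (3 * (a2 * a3 + 1) - (a2 + a3) - (b + a4)) :=
    mul_pos (by linarith) (by linarith)
  nlinarith

theorem EX {a b : ℝ} (h1 : 1 ≤ a) (h : a < b) : a * th b < b * th a := by
  unfold th
  nlinarith [mul_pos (sub_pos.mpr h) (show 0 < a * b - 1 by nlinarith)]

noncomputable def aa (z : ℝ) (S : T) : ℝ := 1 + be (g S z)

theorem aa_bd {z : ℝ} (hz : 0 ≤ z) (S : T) : 1 ≤ aa z S ∧ aa z S ≤ 3 / 2 := by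
  unfold aa
  constructor <;> linarith [be_nn (g_nn S hz), be_le (g S z)]

theorem aa_th {z : ℝ} {S : T} (hv : g S z ≤ 1 / 4) : th (aa z S) = 1 + g S z := by
  unfold aa th
  linarith [be_eq hv]

theorem aa_node (z : ℝ) (l r : T) : 1 + g (.node l r) z = aa z l * aa z r := by
  simp only [aa, g]; ring

theorem aa_ge {z : ℝ} {S : T} (hv : g S z ≤ 1 / 4) : 1 + g S z ≤ aa z S := by
  rw [← aa_th hv]; unfold th; nlinarith [sq_nonneg (aa z S - 1)]

theorem aa_gt {z : ℝ} (hz : 0 < z) {S : T} (hv : g S z ≤ 1 / 4) : 1 < aa z S := by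
  have := g_ge S hz.le hv
  have h1 : (1 : ℝ) ≤ S.size := by exact_mod_cast size_pos S
  nlinarith [aa_ge hv]

theorem aa_le {z : ℝ} {S U : T} (h : g S z ≤ g U z) : aa z S ≤ aa z U := by
  unfold aa; linarith [be_mono h]

theorem aa_lt {z : ℝ} {S U : T} (hv : g U z ≤ 1 / 4) (h : g S z < g U z) : aa z S < aa z U := by
  refine lt_of_le_of_ne (aa_le h.le) fun e => ?_
  have a := aa_th hv
  have b := aa_th (h.le.trans hv)
  rw [e] at b
  linarith

theorem exch {s : ℕ → ℝ} {K : ℕ} (pos : ∀ k, 0 < s k)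
    (cv : ∀ k, 1 ≤ k → k + 2 ≤ K → s (k + 1) * s (k + 1) < s k * s (k + 2)) {i j : ℕ} (hi : 1 ≤ i)
    (hij : i + 1 ≤ j) (hj : j + 1 ≤ K) : s (i + 1) * s j < s i * s (j + 1) := by
  induction j, hij using Nat.le_induction with
  | base => exact cv i hi hj
  | succ j hij ih =>
    have a := ih (by omega)
    have b := cv j (by omega) hj
    apply lt_of_mul_lt_mul_right _ (mul_pos (pos j) (pos (j + 1))).le
    have := mul_lt_mul'' a b (mul_pos (pos _) (pos _)).le (mul_pos (pos _) (pos _)).le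
    nlinarith

theorem spread {s : ℕ → ℝ} {K : ℕ} (pos : ∀ k, 0 < s k)
    (cv : ∀ k, 1 ≤ k → k + 2 ≤ K → s (k + 1) * s (k + 1) < s k * s (k + 2)) (d : ℕ) {i j : ℕ}
    (hi : 1 ≤ i) (hij : i + d + 1 ≤ j) (hj : j + d + 1 ≤ K) :
    s (i + d + 1) * s j < s i * s (j + d + 1) := by
  induction d generalizing j with
  | zero => exact exch pos cv hi hij hj
  | succ d ih =>
    have a := exch pos cv (i := i + d + 1) (j := j) (by omega) hij (by omega)
    have b := ih (j := j + 1) (by omega) (by omega)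
    rw [show j + 1 + d + 1 = j + (d + 1) + 1 by omega] at b
    exact a.trans b

theorem spread' {s : ℕ → ℝ} {K : ℕ} (pos : ∀ k, 0 < s k)
    (cv : ∀ k, 1 ≤ k → k + 2 ≤ K → s (k + 1) * s (k + 1) < s k * s (k + 2)) {i i' j' j : ℕ}
    (hi : 1 ≤ i) (h1 : i < i') (h2 : i' ≤ j') (h3 : i + j = i' + j') (hj : j ≤ K) :
    s i' * s j' < s i * s j := by
  obtain ⟨d, rfl⟩ : ∃ d, i' = i + d + 1 := ⟨i' - i - 1, by omega⟩
  obtain rfl : j = j' + d + 1 := by omega
  exact spread pos cv d hi h2 hj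

def BT : ℕ → T
  | 0 => .leaf
  | 1 => .leaf
  | k + 2 => .node (BT ((k + 2) / 2)) (BT ((k + 3) / 2))

theorem BT_eq {k : ℕ} (hk : 2 ≤ k) : BT k = .node (BT (k / 2)) (BT ((k + 1) / 2)) := by
  obtain ⟨k, rfl⟩ : ∃ j, k = j + 2 := ⟨k - 2, by omega⟩
  rw [BT]

theorem BT_one : BT 1 = .leaf := by rw [BT]

theorem BT_ev {j : ℕ} (hj : 1 ≤ j) : BT (2 * j) = .node (BT j) (BT j) := by
  rw [BT_eq (by omega)]; congr 2 <;> omega

theorem BT_od {j : ℕ} (hj : 1 ≤ j) : BT (2 * j + 1) = .node (BT j) (BT (j + 1)) := by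
  rw [BT_eq (by omega)]; congr 2 <;> omega

theorem BT_mono {z : ℝ} (hz : 0 < z) (k : ℕ) (hk : 1 ≤ k) (hv : g (BT (k + 1)) z ≤ 1 / 4) :
    g (BT k) z < g (BT (k + 1)) z := by
  induction k using Nat.strong_induction_on with
  | _ k ih =>
    obtain ⟨j, rfl | rfl⟩ := Nat.even_or_odd' k
    · rw [BT_od (by omega)] at hv ⊢
      rw [BT_ev (by omega)]
      have v := (g_child hz.le hv).2
      have := aa_lt v (ih j (by omega) (by omega) v)
      nlinarith [aa_node z (BT j) (BT j), aa_node z (BT j) (BT (j + 1)), aa_bd hz.le (BT j)]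
    · rw [show 2 * j + 1 + 1 = 2 * (j + 1) by ring, BT_ev (by omega)] at hv ⊢
      have v := (g_child hz.le hv).2
      rcases Nat.eq_zero_or_pos j with rfl | hj
      · nlinarith [aa_node z (BT (0 + 1)) (BT (0 + 1)), aa_ge v, aa_gt hz v]
      · rw [BT_od hj]
        have := aa_lt v (ih j (by omega) hj v)
        nlinarith [aa_node z (BT (j + 1)) (BT (j + 1)), aa_node z (BT j) (BT (j + 1)),
          aa_bd hz.le (BT (j + 1))]

theorem down {U : ℕ → T} {z : ℝ}
    (mono : ∀ k, 1 ≤ k → g (U (k + 1)) z ≤ 1 / 4 → g (U k) z < g (U (k + 1)) z) {k K : ℕ}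
    (hk : 1 ≤ k) (h : k ≤ K) (hv : g (U K) z ≤ 1 / 4) : g (U k) z ≤ 1 / 4 := by
  induction K, h using Nat.le_induction with
  | base => exact hv
  | succ K h ih => exact ih ((mono K (by omega) hv).le.trans hv)

theorem BT_conv {z : ℝ} (hz : 0 < z) (k : ℕ) (hk : 1 ≤ k) (hv : g (BT (k + 2)) z ≤ 1 / 4) :
    aa z (BT (k + 1)) * aa z (BT (k + 1)) < aa z (BT k) * aa z (BT (k + 2)) := by
  induction k using Nat.strong_induction_on with
  | _ k ih =>
    have m1 := BT_mono hz (k + 1) (by omega) hv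
    have v1 := m1.le.trans hv
    have v0 := (BT_mono hz k hk v1).le.trans v1
    have l1 := aa_lt hv m1
    have g1 := aa_gt hz v1
    by_cases h1 : k = 1
    · subst h1
      have := EX g1.le l1
      rw [aa_th hv, aa_th v1] at this
      have e1 := aa_node z (BT 1) (BT 1)
      have e2 := aa_node z (BT 1) (BT (1 + 1))
      rw [← BT_ev le_rfl] at e1
      rw [← BT_od le_rfl] at e2
      rw [e1, e2] at this
      have g0 := aa_gt hz v0
      apply lt_of_mul_lt_mul_left _ (show 0 ≤ aa z (BT 1) by linarith)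
      nlinarith
    refine LC (aa_bd hz.le _).1 g1.le g1.le (aa_bd hz.le _).2 l1 l1 (by nlinarith) ?_
    rw [aa_th hv, aa_th v1, aa_th v0]
    obtain ⟨j, rfl | rfl⟩ := Nat.even_or_odd' k
    · rw [BT_od (by omega), BT_ev (by omega), show 2 * j + 2 = 2 * (j + 1) by ring,
        BT_ev (by omega), aa_node, aa_node, aa_node]
      nlinarith
    · rw [show 2 * j + 1 + 2 = 2 * (j + 1) + 1 by ring, BT_od (by omega)] at hv
      have := ih j (by omega) (by omega) (g_child hz.le hv).2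
      rw [show 2 * j + 1 + 2 = 2 * (j + 1) + 1 by ring, show 2 * j + 1 + 1 = 2 * (j + 1) by ring,
        BT_od (by omega), BT_ev (by omega), BT_od (by omega), aa_node, aa_node, aa_node]
      have p := aa_bd hz.le (BT (j + 1))
      nlinarith [mul_pos (show 0 < aa z (BT (j + 1)) by linarith)
        (show 0 < aa z (BT (j + 1)) by linarith)]

theorem CT_eq {k : ℕ} (hk : 1 ≤ k) : CT (k + 1) = .node (CT k) (CT 1) := by
  obtain ⟨k, rfl⟩ : ∃ j, k = j + 1 := ⟨k - 1, by omega⟩
  rfl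

theorem CT_mono {z : ℝ} (hz : 0 < z) (k : ℕ) (hk : 1 ≤ k) (hv : g (CT (k + 1)) z ≤ 1 / 4) :
    g (CT k) z < g (CT (k + 1)) z := by
  rw [CT_eq hk] at hv ⊢
  obtain ⟨v1, v2⟩ := g_child hz.le hv
  nlinarith [aa_node z (CT k) (CT 1), aa_ge v1, aa_gt hz v2, aa_gt hz v1]

theorem CT_conv {z : ℝ} (hz : 0 < z) (k : ℕ) (hk : 1 ≤ k) (hv : g (CT (k + 2)) z ≤ 1 / 4) :
    aa z (CT (k + 1)) * aa z (CT (k + 1)) < aa z (CT k) * aa z (CT (k + 2)) := by
  have m1 := CT_mono hz (k + 1) (by omega) hv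
  have v1 := m1.le.trans hv
  have := EX (aa_gt hz v1).le (aa_lt hv m1)
  rw [aa_th hv, aa_th v1] at this
  have e1 := aa_node z (CT k) (CT 1)
  have e2 := aa_node z (CT (k + 1)) (CT 1)
  rw [← CT_eq hk] at e1
  rw [← CT_eq (by omega)] at e2
  rw [e1, e2] at this
  apply lt_of_mul_lt_mul_left _ (show 0 ≤ aa z (CT 1) by linarith [aa_bd hz.le (CT 1)])
  nlinarith

def E (S U : T) : Prop := GF S = GF U ∧ g S = g U

theorem E.node {l r l' r' : T} (a : E l l') (b : E r r') : E (.node l r) (.node l' r') :=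
  ⟨by simp only [GF, a.1, b.1], by funext z; simp only [g, a.2, b.2]⟩

theorem E.swap (l r : T) : E (.node l r) (.node r l) :=
  ⟨by simp only [GF]; congr 1; ring, by funext z; simp only [g]; ring⟩

theorem E.trans {a b c : T} (x : E a b) (y : E b c) : E a c := ⟨x.1.trans y.1, x.2.trans y.2⟩

theorem near {i j : ℕ} (hi : 1 ≤ i) (hj : 1 ≤ j) (h1 : i ≤ j + 1) (h2 : j ≤ i + 1) :
    E (.node (BT i) (BT j)) (BT (i + j)) := by
  rw [BT_eq (k := i + j) (by omega)]
  rcases le_or_gt i j with h | h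
  · rw [show (i + j) / 2 = i by omega, show (i + j + 1) / 2 = j by omega]
    exact ⟨rfl, rfl⟩
  · rw [show (i + j) / 2 = j by omega, show (i + j + 1) / 2 = i by omega]
    exact E.swap _ _

theorem bal (U : T) (hU : Balanced U) : E U (BT U.size) := by
  induction U with
  | leaf => rw [T.size, BT_one]; exact ⟨rfl, rfl⟩
  | node l r hl hr =>
    exact ((hl hU.2.2.1).node (hr hU.2.2.2)).trans (near (size_pos l) (size_pos r) hU.1 hU.2.1)

def Lt (U S : T) : Prop := ∀ z, 0 < z → g S z ≤ 1 / 4 → g U z < g S z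

theorem Lt.node {l r l' r' : T} (a : E l l' ∨ Lt l l') (b : E r r' ∨ Lt r r') :
    E (.node l r) (.node l' r') ∨ Lt (.node l r) (.node l' r') := by
  by_cases h : E l l' ∧ E r r'
  · exact Or.inl (h.1.node h.2)
  refine Or.inr fun z hz hv => ?_
  obtain ⟨v1, v2⟩ := g_child hz.le hv
  have e1 := aa_node z l r
  have e2 := aa_node z l' r'
  have p1 := aa_bd hz.le l
  have p2 := aa_bd hz.le r
  rcases a with a | a <;> rcases b with b | b
  · exact absurd ⟨a, b⟩ h
  · have x := aa_le (congrFun a.2 z).le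
    have y := aa_lt v2 (b z hz v2)
    nlinarith
  · have x := aa_lt v1 (a z hz v1)
    have y := aa_le (congrFun b.2 z).le
    nlinarith
  · have x := aa_lt v1 (a z hz v1)
    have y := aa_lt v2 (b z hz v2)
    nlinarith

theorem comb {a b c : T} (x : E a b ∨ Lt a b) (y : E b c ∨ Lt b c) : E a c ∨ Lt a c := by
  rcases x with x | x <;> rcases y with y | y
  · exact Or.inl (x.trans y)
  · exact Or.inr fun z hz hv => by rw [x.2]; exact y z hz hv
  · exact Or.inr fun z hz hv => by rw [← y.2] at hv ⊢; exact x z hz hv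
  · exact Or.inr fun z hz hv => (x z hz ((y z hz hv).le.trans hv)).trans (y z hz hv)

theorem BT_far {i j : ℕ} (hi : 1 ≤ i) (h : i + 2 ≤ j) :
    Lt (BT (i + j)) (.node (BT i) (BT j)) := by
  intro z hz hv
  have v := (g_child hz.le hv).2
  have := spread' (s := fun k => aa z (BT k)) (K := j)
    (fun k => by linarith [aa_bd hz.le (BT k)])
    (fun k hk hk' => BT_conv hz k hk (down (BT_mono hz) (by omega) hk' v))
    (i := i) (i' := (i + j) / 2) (j' := (i + j + 1) / 2) (j := j) hi (by omega) (by omega)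
    (by omega) le_rfl
  rw [BT_eq (k := i + j) (by omega)]
  linarith [aa_node z (BT i) (BT j), aa_node z (BT ((i + j) / 2)) (BT ((i + j + 1) / 2))]

theorem minB (S : T) : E (BT S.size) S ∨ Lt (BT S.size) S := by
  induction S with
  | leaf => rw [T.size, BT_one]; exact Or.inl ⟨rfl, rfl⟩
  | node l r hl hr =>
    refine comb ?_ (Lt.node hl hr)
    have a := size_pos l
    have b := size_pos r
    rw [T.size]
    by_cases h1 : l.size + 2 ≤ r.size
    · exact Or.inr (BT_far a h1)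
    by_cases h2 : r.size + 2 ≤ l.size
    · rw [add_comm]
      exact comb (Or.inr (BT_far b h2)) (Or.inl (E.swap _ _))
    · have := near a b (by omega) (by omega)
      exact Or.inl ⟨this.1.symm, this.2.symm⟩

theorem CT_far {i j : ℕ} (hi : 1 ≤ i) (h : i ≤ j) :
    E (.node (CT i) (CT j)) (CT (i + j)) ∨ Lt (.node (CT i) (CT j)) (CT (i + j)) := by
  rcases hi.eq_or_lt with rfl | hi'
  · rw [add_comm, CT_eq h]
    exact Or.inl (E.swap _ _)
  refine Or.inr fun z hz hv => ?_
  obtain ⟨k, hk⟩ : ∃ k, i + j = k + 1 := ⟨i + j - 1, by omega⟩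
  rw [hk, CT_eq (by omega)] at hv ⊢
  have v := (g_child hz.le hv).1
  have := spread' (s := fun k => aa z (CT k)) (K := k)
    (fun k => by linarith [aa_bd hz.le (CT k)])
    (fun k hk hk' => CT_conv hz k hk (down (CT_mono hz) (by omega) hk' v))
    (i := 1) (i' := i) (j' := j) (j := k) le_rfl hi' h (by omega) le_rfl
  linarith [aa_node z (CT i) (CT j), aa_node z (CT k) (CT 1)]

theorem maxC (S : T) : E S (CT S.size) ∨ Lt S (CT S.size) := by
  induction S with
  | leaf => exact Or.inl ⟨rfl, rfl⟩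
  | node l r hl hr =>
    refine comb (Lt.node hl hr) ?_
    rw [T.size]
    rcases le_total l.size r.size with h | h
    · exact CT_far (size_pos l) h
    · rw [add_comm]
      exact comb (Or.inl (E.swap _ _)) (CT_far (size_pos r) h)

theorem ev {U S : T} (x : E U S ∨ Lt U S) : ∀ᶠ n in atTop, h U n ≤ h S n := by
  rcases x with x | x
  · exact Eventually.of_forall fun n => by unfold h; rw [x.1]
  · exact dom x

theorem fin (k : ℕ) : {S : T | S.size ≤ k}.Finite := by
  induction k with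
  | zero => exact Set.finite_empty.subset fun S hS => by have := size_pos S; simp at hS; omega
  | succ k ih =>
    refine (((ih.prod ih).image fun p => T.node p.1 p.2).insert T.leaf).subset fun S hS => ?_
    cases S with
    | leaf => simp
    | node l r =>
      have a := size_pos l
      have b := size_pos r
      simp only [Set.mem_ofPred_eq, T.size] at hS
      exact Or.inr ⟨(l, r), ⟨by simp; omega, by simp; omega⟩, rfl⟩

theorem rho_bd (S : T) {x y : ℝ} (hx : 0 ≤ x) (hv : g S x ≤ 1 / 4)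
    (hy : ∀ z, 0 ≤ z → g S z ≤ 1 / 4 → z ≤ y) : x ≤ rho S ∧ rho S ≤ y := by
  rw [rho_eq]
  exact ⟨le_csSup ⟨y, fun z hz => hy z hz.1 hz.2⟩ ⟨hx, hv⟩,
    csSup_le ⟨x, hx, hv⟩ fun z hz => hy z hz.1 hz.2⟩

theorem bal_up (U : T) (hU : Balanced U) {z : ℝ} (hz : 0 ≤ z) (h : 21 * (U.size * z) ≤ 1) :
    g U z ≤ 2 * (U.size * z) ∧ be (g U z) ≤ U.size * z + 21 * (U.size * z) ^ 2 := by
  have key : ∀ x w : ℝ, 0 ≤ w → 21 * w ≤ 1 → 0 ≤ x → x ≤ w + 13 * w ^ 2 →
      x ≤ 2 * w ∧ be x ≤ w + 21 * w ^ 2 := by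
    intro x w h0 h1 h2 h3
    have a : x ≤ 2 * w := by nlinarith
    have b : be x ≤ x + 2 * x ^ 2 := be_le_of (by
      have : (1 + 2 * x) ^ 2 ≤ 2 := by nlinarith
      nlinarith [sq_nonneg x])
    exact ⟨a, by nlinarith⟩
  induction U with
  | leaf =>
    simp only [T.size, g, Nat.cast_one, one_mul] at h ⊢
    exact key z z hz h hz (by nlinarith)
  | node l r hl hr =>
    have a : (1 : ℝ) ≤ l.size := by exact_mod_cast size_pos l
    have b : (1 : ℝ) ≤ r.size := by exact_mod_cast size_pos r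
    have c : (l.size : ℝ) ≤ r.size + 1 := by exact_mod_cast hU.1
    have d : (r.size : ℝ) ≤ l.size + 1 := by exact_mod_cast hU.2.1
    refine key _ _ (by positivity) h (g_nn _ hz) ?_
    simp only [T.size, g] at h ⊢
    push_cast at h ⊢
    have p1 : 0 ≤ l.size * z := by positivity
    have p2 : 0 ≤ r.size * z := by positivity
    have x := (hl hU.2.2.1 (by linarith)).2
    have y := (hr hU.2.2.2 (by linarith)).2
    have x' : be (g l z) ≤ 2 * (l.size * z) := by nlinarith
    have y' : be (g r z) ≤ 2 * (r.size * z) := by nlinarith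
    have m := mul_le_mul x' y' (be_nn (g_nn r hz)) (by positivity)
    have q : 21 * ((l.size : ℝ) ^ 2 + (r.size : ℝ) ^ 2) + 4 * l.size * r.size ≤
        13 * (l.size + r.size) ^ 2 := by
      have hi : 21 * (l.size ^ 2 + r.size ^ 2) + 4 * l.size * r.size ≤
          13 * (l.size + r.size) ^ 2 := by
        have := size_pos l
        have := size_pos r
        have := hU.1
        have := hU.2.1
        have : l.size = r.size ∨ l.size = r.size + 1 ∨ r.size = l.size + 1 := by omega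
        rcases this with e | e | e <;> rw [e] <;> nlinarith
      exact_mod_cast hi
    nlinarith [mul_le_mul_of_nonneg_right q (sq_nonneg z)]

theorem CT_size (k : ℕ) : (CT (k + 1)).size = k + 1 := by
  induction k with
  | zero => rfl
  | succ k ih => simp only [CT, T.size, ih]

theorem CT_low {z : ℝ} (hz : 0 < z) {j : ℕ} (hj : 1 ≤ j) (i : ℕ) (hv : g (CT (j + i)) z ≤ 1 / 4) :
    j * z + i * (j * z) ^ 2 ≤ g (CT (j + i)) z := by
  induction i with
  | zero =>
    obtain ⟨j, rfl⟩ : ∃ k, j = k + 1 := ⟨j - 1, by omega⟩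
    have := g_ge _ hz.le hv
    rw [add_zero, CT_size] at this
    simpa using this
  | succ i ih =>
    rw [← add_assoc, CT_eq (by omega)] at hv ⊢
    obtain ⟨v1, v2⟩ := g_child hz.le hv
    have a := ih v1
    have b := be_eq v1
    have c := be_nn (g_nn (CT 1) hz.le)
    have d := be_nn (g_nn (CT (j + i)) hz.le)
    have p : 0 ≤ (j : ℝ) * z := by positivity
    have q : 0 ≤ (i : ℝ) * (j * z) ^ 2 := by positivity
    have e : (j * z) ^ 2 ≤ be (g (CT (j + i)) z) ^ 2 :=
      pow_le_pow_left₀ p (by nlinarith [sq_nonneg (be (g (CT (j + i)) z))]) 2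
    simp only [g]
    push_cast
    nlinarith [mul_nonneg c d]

theorem result :
    (∀ k, 1 ≤ k → ∃ N, ∀ n, N ≤ n → ∀ S : T, S.size = k →
      (∀ U : T, U.size = k → Balanced U → h U n ≤ h S n) ∧ h S n ≤ h (CT k) n) ∧
    Tendsto (fun k : ℕ => alpha (CT k) / k) atTop atTop ∧
    ∀ U : T, Balanced U → 4 * (U.size : ℝ) ≤ alpha U ∧ alpha U ≤ 21 * U.size := by
  refine ⟨fun k _ => ?_, ?_, fun U hU => ?_⟩
  · have := (eventually_all_finite (fin k)).mpr
      fun S _ => (ev (minB S)).and (ev (maxC S))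
    obtain ⟨N, hN⟩ := eventually_atTop.mp this
    refine ⟨N, fun n hn S hS => ?_⟩
    have := hN n hn S hS.le
    rw [hS] at this
    refine ⟨fun U hU hb => le_of_eq_of_le ?_ this.1, this.2⟩
    unfold h
    rw [(bal U hb).1, hU]
  · rw [tendsto_atTop]
    intro C
    obtain ⟨D, hD⟩ := exists_nat_ge C
    filter_upwards [eventually_ge_atTop (6 * (D + 1) ^ 2)] with k hk
    obtain ⟨x, x0, xv⟩ : ∃ x, 0 < x ∧ g (CT k) x ≤ 1 / 4 := by
      have : ∀ᶠ y in nhds 0, g (CT k) y < 1 / 4 :=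
        (g_cont _).continuousAt.eventually_lt_const (by rw [g_zero]; norm_num)
      exact ((this.filter_mono nhdsWithin_le_nhds).and
        (self_mem_nhdsWithin (s := Set.Ioi 0))).exists.imp fun y hy => ⟨hy.2, hy.1.le⟩
    have D1 : 1 ≤ (D + 1) ^ 2 := Nat.one_le_pow _ _ (by omega)
    have k0 : (0 : ℝ) < k := by exact_mod_cast (by omega : 0 < k)
    obtain ⟨r1, r2⟩ := rho_bd (CT k) (y := ((D + 1) * k : ℝ)⁻¹) x0.le xv (fun z hz hv => by
      rcases hz.eq_or_lt with rfl | hz'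
      · positivity
      obtain ⟨j, i, e, ji, j3, jD⟩ : ∃ j i : ℕ, k = j + i ∧ j ≤ i ∧ k ≤ 3 * j ∧ 3 * (D + 1) ^ 2 ≤ j :=
        ⟨k / 2, k - k / 2, by omega, by omega, by omega, by omega⟩
      have a := CT_low hz' (j := j) (by omega) i (e ▸ hv)
      rw [← e] at a
      have ji' : (j : ℝ) ≤ i := by exact_mod_cast ji
      have j3' : (k : ℝ) ≤ 3 * j := by exact_mod_cast j3
      have jD' : 3 * ((D : ℝ) + 1) ^ 2 ≤ j := by exact_mod_cast jD
      have p : 0 ≤ (j : ℝ) * z := by positivity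
      have q : 3 * ((D : ℝ) + 1) ^ 2 * (j * z) ^ 2 ≤ 1 / 4 := by nlinarith [sq_nonneg (j * z)]
      rw [← one_div, le_div_iff₀ (by positivity)]
      have s : z * ((D + 1) * k) ≤ 3 * ((D + 1) * (j * z)) := by
        have : z * ((D + 1) * k) ≤ z * ((D + 1) * (3 * j)) := by gcongr
        linarith
      nlinarith)
    rw [le_div_iff₀ k0]
    have := inv_anti₀ (x0.trans_le r1) r2
    rw [inv_inv] at this
    unfold alpha
    nlinarith
  · have a : (1 : ℝ) ≤ U.size := by exact_mod_cast size_pos U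
    have e : (U.size : ℝ) * (21 * U.size : ℝ)⁻¹ = 1 / 21 := by field_simp
    have b := (bal_up U hU (z := (21 * U.size : ℝ)⁻¹) (by positivity) (by rw [e]; norm_num)).1
    rw [e] at b
    obtain ⟨r1, r2⟩ := rho_bd U (x := (21 * U.size : ℝ)⁻¹) (y := (4 * U.size : ℝ)⁻¹)
      (by positivity) (by linarith) (fun z hz hv => by
        have := g_ge U hz hv
        rw [← one_div, le_div_iff₀ (by positivity)]
        linarith)
    have p : 0 < (21 * U.size : ℝ)⁻¹ := by positivity
    have c := inv_anti₀ (p.trans_le r1) r2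
    have d := inv_anti₀ p r1
    rw [inv_inv] at c d
    exact ⟨c, d⟩

end Pool.Agent.Results.MP_f5c34b_co.Yes
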